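import Pool.Agent.Q22.CN.Stm

/-!
# The function field of the Fermat curve of degree 16
-/

set_option autoImplicit false

open Polynomial

namespace Q130.CN.FLD

open Pool.Agent.Q22.CN

noncomputable section

/-- the Fermat polynomial -/
def ff : (ℂ[X])[X] := X ^ 16 + C (X ^ 16 + 1)

lemma ff_monic : ff.Monic := monic_X_pow_add_C _ (by norm_num)

lemma ff_natDegree : ff.natDegree = 16 := natDegree_X_pow_add_C

lemma exists_eps : ∃ ε : ℂ, ε ^ 16 = -1 := IsAlgClosed.exists_pow_nat_eq (-1) (by norm_num)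

lemma ff_irr : Irreducible ff := by
  obtain ⟨ε, hε⟩ := exists_eps
  have hε0 : ε ≠ 0 := by rintro rfl; norm_num at hε
  have hp : (Ideal.span {(X - C ε : ℂ[X])}).IsPrime :=
    (Ideal.span_singleton_prime (X_sub_C_ne_zero ε)).2 (prime_X_sub_C ε)
  have hE : ff.IsEisensteinAt (Ideal.span {(X - C ε : ℂ[X])}) := by
    apply ff_monic.isEisensteinAt_of_mem_of_notMem hp.ne_top
    · intro n hn
      rw [ff_natDegree] at hn
      rw [Ideal.mem_span_singleton, dvd_iff_isRoot]
      have : ff.coeff n = if n = 0 then (X ^ 16 + 1 : ℂ[X]) else 0 := by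
        rw [ff, coeff_add, coeff_X_pow, if_neg hn.ne, zero_add, coeff_C]
      rw [this]
      split_ifs
      · simp [IsRoot, hε]
      · simp [IsRoot]
    · have : ff.coeff 0 = (X ^ 16 + 1 : ℂ[X]) := by
        rw [ff, coeff_add, coeff_X_pow, if_neg (by norm_num), zero_add, coeff_C, if_pos rfl]
      rw [this, Ideal.span_singleton_pow, Ideal.mem_span_singleton]
      rintro ⟨h, hh⟩
      have h2 := congrArg (fun p => eval ε (derivative p)) hh
      simp only [derivative_add, derivative_one, derivative_mul, derivative_pow,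
        derivative_sub, derivative_X, derivative_C, eval_add, eval_mul, eval_sub, eval_X, eval_C,
        eval_pow, sub_self, eval_zero] at h2
      simp [hε0] at h2
  exact hE.irreducible hp ff_monic.isPrimitive (by rw [ff_natDegree]; norm_num)

lemma ff_prime : Prime ff := ff_irr.prime

instance : Fact (Irreducible ff) := ⟨ff_irr⟩

/-- the coordinate ring -/
abbrev AA : Type := AdjoinRoot ff

instance : IsDomain AA := AdjoinRoot.isDomain_of_prime ff_prime

/-- the function field -/
abbrev KK : Type := FractionRing AA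

/-- the first coordinate -/
def yy : KK := algebraMap AA KK (AdjoinRoot.mk ff (C X))

/-- the second coordinate -/
def ss : KK := algebraMap AA KK (AdjoinRoot.mk ff X)

/-- polynomials in two variables -/
def psi : MvPolynomial (Fin 2) ℂ →+* (ℂ[X])[X] :=
  MvPolynomial.eval₂Hom ((C : ℂ[X] →+* (ℂ[X])[X]).comp C) ![C X, X]

lemma psi_C (r : ℂ) : psi (MvPolynomial.C r) = C (C r) := by
  simp [psi]

lemma psi_X0 : psi (MvPolynomial.X 0) = C X := by
  simp [psi]

lemma psi_X1 : psi (MvPolynomial.X 1) = X := by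
  simp [psi]

lemma aeval_eq (g : MvPolynomial (Fin 2) ℂ) :
    MvPolynomial.aeval ![yy, ss] g = algebraMap AA KK (AdjoinRoot.mk ff (psi g)) := by
  have : (MvPolynomial.aeval ![yy, ss] : MvPolynomial (Fin 2) ℂ →ₐ[ℂ] KK).toRingHom =
      (algebraMap AA KK).comp ((AdjoinRoot.mk ff).comp psi) := by
    apply MvPolynomial.ringHom_ext
    · intro r
      simp only [AlgHom.toRingHom_eq_coe, RingHom.coe_coe, RingHom.comp_apply, psi_C]
      rw [← MvPolynomial.algebraMap_eq, AlgHom.commutes, IsScalarTower.algebraMap_apply ℂ AA KK]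
      rfl
    · intro i
      simp only [AlgHom.toRingHom_eq_coe, RingHom.coe_coe, RingHom.comp_apply, MvPolynomial.aeval_X]
      fin_cases i
      · simp [psi_X0, yy]
      · simp [psi_X1, ss]
  exact congrArg (fun φ : MvPolynomial (Fin 2) ℂ →+* KK => φ g) this

lemma eval_eq (p q : ℂ) (g : MvPolynomial (Fin 2) ℂ) :
    MvPolynomial.eval ![p, q] g = (psi g).evalEval p q := by
  have : (MvPolynomial.eval ![p, q] : MvPolynomial (Fin 2) ℂ →+* ℂ) =
      (evalEvalRingHom p q).comp psi := by
    apply MvPolynomial.ringHom_ext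
    · intro r
      simp only [RingHom.comp_apply, psi_C, MvPolynomial.eval_C]
      simp [evalEvalRingHom]
    · intro i
      simp only [RingHom.comp_apply, MvPolynomial.eval_X]
      fin_cases i
      · simp [psi_X0, evalEvalRingHom]
      · simp [psi_X1, evalEvalRingHom]
  have h := congrArg (fun φ : MvPolynomial (Fin 2) ℂ →+* ℂ => φ g) this
  simpa [evalEvalRingHom] using h

lemma evalEval_ff (p q : ℂ) : ff.evalEval p q = q ^ 16 + p ^ 16 + 1 := by
  simp [ff, evalEval]
  ring

lemma card_roots {a : ℂ} (ha : a ≠ 0) : ∃ s : Finset ℂ, s.card = 16 ∧ ∀ q ∈ s, q ^ 16 = a := by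
  obtain ⟨b, hb⟩ := IsAlgClosed.exists_pow_nat_eq a (n := 16) (by norm_num)
  have hb0 : b ≠ 0 := by rintro rfl; simp at hb; exact ha hb.symm
  have hz : IsPrimitiveRoot (Complex.exp (2 * Real.pi * Complex.I / (16 : ℕ))) 16 :=
    Complex.isPrimitiveRoot_exp 16 (by norm_num)
  refine ⟨(nthRootsFinset 16 (1 : ℂ)).image (fun z => z * b), ?_, ?_⟩
  · rw [Finset.card_image_of_injective _ (mul_left_injective₀ hb0), hz.card_nthRootsFinset]
  · intro q hq
    obtain ⟨z, hz, rfl⟩ := Finset.mem_image.1 hq
    rw [mem_nthRootsFinset (by norm_num)] at hz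
    simp only [mul_pow, hz, hb, one_mul]

lemma dvd_of_vanish (G : (ℂ[X])[X]) (hG : ∀ p q : ℂ, p ^ 16 + q ^ 16 + 1 = 0 → G.evalEval p q = 0) :
    ff ∣ G := by
  rw [← modByMonic_eq_zero_iff_dvd ff_monic]
  set r := G %ₘ ff with hr
  have hdeg : r.natDegree < 16 := by
    have := natDegree_modByMonic_lt G ff_monic (by
      intro h
      have := congrArg natDegree h
      rw [ff_natDegree] at this
      simp at this)
    rwa [ff_natDegree] at this
  have hrv : ∀ p q : ℂ, p ^ 16 + q ^ 16 + 1 = 0 → r.evalEval p q = 0 := by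
    intro p q h
    have h1 := modByMonic_add_div G ff
    have h2 := congrArg (fun P : (ℂ[X])[X] => P.evalEval p q) h1
    have h3 : ff.evalEval p q = 0 := by rw [evalEval_ff]; linear_combination h
    simp only [evalEval_add, evalEval_mul, h3, zero_mul, add_zero, hG p q h] at h2
    exact h2
  have hz : ∀ p : ℂ, p ^ 16 + 1 ≠ 0 → r.map (evalRingHom p) = 0 := by
    intro p hp
    obtain ⟨s, hs, hsq⟩ := card_roots (a := -(p ^ 16 + 1)) (neg_ne_zero.2 hp)
    apply eq_zero_of_natDegree_lt_card_of_eval_eq_zero' _ s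
    · intro q hq
      rw [map_evalRingHom_eval]
      exact hrv p q (by rw [hsq q hq]; ring)
    · rw [hs]
      exact lt_of_le_of_lt natDegree_map_le hdeg
  ext1 j
  rw [coeff_zero]
  apply eq_zero_of_infinite_isRoot
  have hfin : {p : ℂ | p ^ 16 + 1 = 0}.Finite := by
    have h0 : (X ^ 16 + C 1 : ℂ[X]) ≠ 0 := (monic_X_pow_add_C (1 : ℂ) (by norm_num)).ne_zero
    apply (finite_setOfPred_isRoot h0).subset
    intro p hp
    simpa [IsRoot] using hp
  apply hfin.infinite_compl.mono
  intro p hp
  have := congrArg (fun P => P.coeff j) (hz p hp)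
  simpa [coeff_map] using this

lemma aeval_zero_iff (g : MvPolynomial (Fin 2) ℂ) :
    MvPolynomial.aeval ![yy, ss] g = 0 ↔
      ∀ p q : ℂ, p ^ 16 + q ^ 16 + 1 = 0 → MvPolynomial.eval ![p, q] g = 0 := by
  rw [aeval_eq, map_eq_zero_iff _ (IsFractionRing.injective AA KK), AdjoinRoot.mk_eq_zero]
  constructor
  · rintro ⟨H, hH⟩ p q h
    rw [eval_eq, hH, evalEval_mul, evalEval_ff]
    have : q ^ 16 + p ^ 16 + 1 = 0 := by linear_combination h
    rw [this, zero_mul]
  · intro h
    apply dvd_of_vanish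
    intro p q hpq
    rw [← eval_eq]
    exact h p q hpq

lemma mem_adjoin (G : (ℂ[X])[X]) :
    algebraMap AA KK (AdjoinRoot.mk ff G) ∈ IntermediateField.adjoin ℂ ({yy, ss} : Set KK) := by
  have hy : yy ∈ IntermediateField.adjoin ℂ ({yy, ss} : Set KK) :=
    IntermediateField.subset_adjoin _ _ (by simp)
  have hs : ss ∈ IntermediateField.adjoin ℂ ({yy, ss} : Set KK) :=
    IntermediateField.subset_adjoin _ _ (by simp)
  have hC : ∀ a : ℂ[X], algebraMap AA KK (AdjoinRoot.mk ff (C a)) ∈
      IntermediateField.adjoin ℂ ({yy, ss} : Set KK) := by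
    intro a
    induction a using Polynomial.induction_on' with
    | add p q hp hq => rw [C_add, map_add, map_add]; exact add_mem hp hq
    | monomial n c =>
      rw [← C_mul_X_pow_eq_monomial, C_mul, C_pow, map_mul, map_mul, map_pow, map_pow]
      refine mul_mem ?_ (pow_mem hy n)
      have : algebraMap AA KK (AdjoinRoot.mk ff (C (C c))) = algebraMap ℂ KK c := by
        rw [IsScalarTower.algebraMap_apply ℂ AA KK]
        rfl
      rw [this]
      exact IntermediateField.algebraMap_mem _ c
  induction G using Polynomial.induction_on' with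
  | add p q hp hq => rw [map_add, map_add]; exact add_mem hp hq
  | monomial n a =>
    rw [← C_mul_X_pow_eq_monomial, map_mul, map_mul, map_pow, map_pow]
    exact mul_mem (hC a) (pow_mem hs n)

theorem t_FLD : S_FLD := by
  refine ⟨KK, inferInstance, inferInstance, yy, ss, ?_, ?_, aeval_zero_iff⟩
  · have h := (aeval_zero_iff (MvPolynomial.X 0 ^ 16 + MvPolynomial.X 1 ^ 16 + 1)).2 (by
      intro p q h
      simpa using h)
    simpa using h
  · rw [eq_top_iff]
    rintro x -
    obtain ⟨a, b, hb, rfl⟩ := IsFractionRing.div_surjective (A := AA) x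
    obtain ⟨G, rfl⟩ := AdjoinRoot.mk_surjective a
    obtain ⟨H, rfl⟩ := AdjoinRoot.mk_surjective b
    exact div_mem (mem_adjoin G) (mem_adjoin H)

end

end Q130.CN.FLD
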